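import Pool.Agent.Helper66.SUB.LAUB

/-! Project SUB, row CORE: the heart of the application to `y ^ 2 - x ^ 3`. -/

set_option autoImplicit false

namespace Pool.Agent.Helper66.SUB

open Finset Pool.Agent.Helper70.SUB

variable {r : ℕ}

/-- all but finitely many elements of `M` -/
def Evt (M : Set ℕ) (P : ℕ → Prop) : Prop := {j | j ∈ M ∧ ¬ P j}.Finite

theorem Evt.mono {M : Set ℕ} {P Q : ℕ → Prop} (h : Evt M P) (hPQ : ∀ j ∈ M, P j → Q j) :
    Evt M Q :=
  Set.Finite.subset h fun j hj => ⟨hj.1, fun hP => hj.2 (hPQ j hj.1 hP)⟩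

theorem Evt.and {M : Set ℕ} {P Q : ℕ → Prop} (h : Evt M P) (h' : Evt M Q) :
    Evt M (fun j => P j ∧ Q j) :=
  Set.Finite.subset (Set.Finite.union h h') fun j hj => by
    by_cases hP : P j
    · exact Or.inr ⟨hj.1, fun hQ => hj.2 ⟨hP, hQ⟩⟩
    · exact Or.inl ⟨hj.1, hP⟩

theorem Evt.all {M : Set ℕ} {α : Type} (s : Finset α) {P : α → ℕ → Prop}
    (h : ∀ a ∈ s, Evt M (P a)) : Evt M (fun j => ∀ a ∈ s, P a j) := by
  classical
  refine Set.Finite.subset (Set.Finite.biUnion s.finite_toSet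
    (t := fun a => {j | j ∈ M ∧ ¬ P a j}) (fun a ha => h a (by exact_mod_cast ha))) ?_
  intro j hj
  obtain ⟨hjM, hn⟩ := hj
  push Not at hn
  obtain ⟨a, ha, hPa⟩ := hn
  exact Set.mem_biUnion (by exact_mod_cast ha) ⟨hjM, hPa⟩

theorem Evt.ex {M : Set ℕ} {P : ℕ → Prop} (hM : M.Infinite) (h : Evt M P) : ∃ j ∈ M, P j := by
  by_contra hne
  push Not at hne
  exact hM (Set.Finite.subset h fun j hj => ⟨hj, hne j hj⟩)

theorem mon_pos (w : Fin r → ℚ) (hw : ∀ k, 0 < w k) (m : Fin r → ℤ) : 0 < mon w m :=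
  Finset.prod_pos fun k _ => zpow_pos (hw k) _

theorem evL_sum {α : Type} (w : Fin r → ℚ) (s : Finset α) (f : α → Lau r) :
    evL w (∑ i ∈ s, f i) = ∑ i ∈ s, evL w (f i) := by
  classical
  induction s using Finset.induction_on with
  | empty => simp [evL_zero]
  | insert a s ha ih => rw [Finset.sum_insert ha, Finset.sum_insert ha, evL_add, ih]

theorem evL_drv (w : Fin r → ℚ) (δ : Fin r → ℤ) (F : Lau r) :
    evL w (drv δ F) = ∑ m ∈ Finsupp.support F.coeff,
      (((∑ k, δ k * m k : ℤ) : ℚ) * F.coeff m) * mon w m := by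
  unfold drv
  rw [evL_sum]
  exact Finset.sum_congr rfl fun m _ => evL_single w m _

theorem evL_one (w : Fin r → ℚ) : evL w (1 : Lau r) = 1 := by
  rw [AddMonoidAlgebra.one_def, evL_single]; simp [mon]

/-- evaluation as a ring homomorphism -/
noncomputable def evR (w : Fin r → ℚ) (hw : ∀ k, 0 < w k) : Lau r →+* ℚ where
  toFun := evL w
  map_one' := evL_one w
  map_mul' := evL_mul w hw
  map_zero' := evL_zero w
  map_add' := evL_add w

theorem evR_apply (w : Fin r → ℚ) (hw : ∀ k, 0 < w k) (F : Lau r) : evR w hw F = evL w F := rfl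

theorem drv_sub (δ : Fin r → ℤ) (F G : Lau r) : drv δ (F - G) = drv δ F - drv δ G := by
  have h : drv δ (F - G + G) = drv δ (F - G) + drv δ G := drv_add δ _ _
  rw [sub_add_cancel] at h
  rw [h, add_sub_cancel_right]

/-- size of the derivative of a Laurent polynomial -/
theorem drv_bound (hAV : ST_AV) (hLAU2 : ST_LAU2) (S : Finset ℕ) (M : Set ℕ)
    (w : ℕ → Fin r → ℚ) (F : Lau r) (ε : ℝ) (H : ℕ → ℝ) (v : Option ℕ)
    (hS : ∀ p ∈ S, p.Prime) (hM : M.Infinite) (hε : 0 < ε) (hF : F ≠ 0) (hI : Indep M w)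
    (hw : ∀ j ∈ M, ∀ k, SQ S (H j) (w j k)) (hH1 : ∀ j ∈ M, 1 ≤ H j) (hv : v ∈ plc S)
    (δ : Fin r → ℤ) :
    ∃ K : ℝ, 0 ≤ K ∧ Evt M (fun j => av v (evL (w j) (drv δ F))
      ≤ K * H j ^ ε * av v (evL (w j) F)) := by
  obtain ⟨C, hC, hfin⟩ := hLAU2 r S M w F ε H v hS hM hε hF hI hw hH1 hv
  have hH : ∀ j ∈ M, 0 < H j := fun j hj => one_pos.trans_le (hH1 j hj)
  obtain ⟨hnn, _, hAS⟩ := hAV
  obtain ⟨_, hmul, _, _, _, _, _, _, hsum⟩ := hAS S hS
  set B0 : ℝ := ∑ m ∈ Finsupp.support F.coeff,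
    av v (((∑ k, δ k * m k : ℤ) : ℚ) * F.coeff m) with hB0
  have hB0n : 0 ≤ B0 := Finset.sum_nonneg fun m _ => hnn _ _
  refine ⟨((Finsupp.support F.coeff).card + 1) * (B0 / C), by positivity, ?_⟩
  refine Evt.mono (P := fun j => ∀ m ∈ Finsupp.support F.coeff,
    C * av v (mon (w j) m) * H j ^ (-ε) ≤ av v (evL (w j) F)) hfin ?_
  intro j hj h
  rw [evL_drv]
  have hHj := hH j hj
  have hE : 0 < H j ^ ε := Real.rpow_pos_of_pos hHj _
  have hb : ∀ m ∈ Finsupp.support F.coeff,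
      av v ((((∑ k, δ k * m k : ℤ) : ℚ) * F.coeff m) * mon (w j) m)
        ≤ B0 * (H j ^ ε * av v (evL (w j) F) / C) := by
    intro m hm
    rw [hmul v hv]
    have h1 := h m hm
    have h2 : av v (mon (w j) m) ≤ H j ^ ε * av v (evL (w j) F) / C := by
      rw [le_div_iff₀ hC]
      have h3 : H j ^ (-ε) * H j ^ ε = 1 := by
        rw [← Real.rpow_add hHj]; simp
      calc av v (mon (w j) m) * C = (C * av v (mon (w j) m) * H j ^ (-ε)) * H j ^ ε := by
            rw [mul_assoc _ (H j ^ (-ε)), h3]; ring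
        _ ≤ av v (evL (w j) F) * H j ^ ε := mul_le_mul_of_nonneg_right h1 hE.le
        _ = H j ^ ε * av v (evL (w j) F) := mul_comm _ _
    refine mul_le_mul ?_ h2 (hnn _ _) hB0n
    exact Finset.single_le_sum (f := fun m => av v (((∑ k, δ k * m k : ℤ) : ℚ) * F.coeff m))
      (fun m _ => hnn _ _) hm
  have hb0 : 0 ≤ B0 * (H j ^ ε * av v (evL (w j) F) / C) :=
    mul_nonneg hB0n (div_nonneg (mul_nonneg hE.le (hnn _ _)) hC.le)
  refine (hsum v hv _ _ _ _ hb0 hb).trans ?_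
  have hcard : (if v = none then ((Finsupp.support F.coeff).card : ℝ) else 1)
      ≤ (Finsupp.support F.coeff).card + 1 := by
    split_ifs
    · linarith
    · have : (0 : ℝ) ≤ (Finsupp.support F.coeff).card := Nat.cast_nonneg _
      linarith
  refine (mul_le_mul_of_nonneg_right hcard hb0).trans (le_of_eq ?_)
  ring

/-- a Laurent polynomial which vanishes at infinitely many points of an independent sequence -/
theorem eq_zero_of_evt (hLAU2 : ST_LAU2) (S : Finset ℕ) (M : Set ℕ)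
    (w : ℕ → Fin r → ℚ) (F : Lau r) (H : ℕ → ℝ)
    (hS : ∀ p ∈ S, p.Prime) (hM : M.Infinite) (hI : Indep M w)
    (hw : ∀ j ∈ M, ∀ k, SQ S (H j) (w j k)) (hH1 : ∀ j ∈ M, 1 ≤ H j)
    (h0 : Evt M (fun j => evL (w j) F = 0)) : F = 0 := by
  have hH : ∀ j ∈ M, 0 < H j := fun j hj => one_pos.trans_le (hH1 j hj)
  by_contra hF
  have hv : (none : Option ℕ) ∈ plc S := by simp [plc]
  obtain ⟨C, hC, hfin⟩ := hLAU2 r S M w F 1 H none hS hM one_pos hF hI hw hH1 hv
  have h1 : Evt M (fun j => ∀ m ∈ Finsupp.support F.coeff,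
    C * av none (mon (w j) m) * H j ^ (-(1 : ℝ)) ≤ av none (evL (w j) F)) := hfin
  obtain ⟨j, hj, hz, hb⟩ := (h0.and h1).ex hM
  have hne : F.coeff ≠ 0 := fun h => hF (AddMonoidAlgebra.coeff_eq_zero.mp h)
  obtain ⟨m, hm⟩ := Finsupp.support_nonempty_iff.mpr hne
  have h2 := hb m hm
  rw [hz] at h2
  have h3 : av none (0 : ℚ) = 0 := by simp [av]
  rw [h3] at h2
  have h4 : 0 < av none (mon (w j) m) := by
    have := mon_pos (w j) (hI.1 j hj) m
    simp only [av]
    exact abs_pos.mpr (by exact_mod_cast this.ne')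
  have h5 : 0 < H j ^ (-(1 : ℝ)) := Real.rpow_pos_of_pos (hH j hj) _
  have : 0 < C * av none (mon (w j) m) * H j ^ (-(1 : ℝ)) := by positivity
  linarith

theorem CORE (hAV : ST_AV) (hLAU1 : ST_LAU1) (hLAU2 : ST_LAU2) (hNUM : ST_NUM) : ST_CORE := by
  intro r S M w X Y a ε x y hS hM hε ha hI hx hj
  have hvn : (none : Option ℕ) ∈ plc S := by simp [plc]
  have hAV' := hAV
  obtain ⟨hnn, hav0, hAS⟩ := hAV'
  obtain ⟨hpos, hmul, htri, hult, hint, _, _, _, _⟩ := hAS S hS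
  -- large |x|
  have hlarge : ∀ B : ℝ, Evt M (fun j => B < |(x j : ℝ)|) := by
    intro B
    refine Set.Finite.subset (hx B) fun j hj => ⟨hj.1, not_lt.mp hj.2⟩
  set M1 : Set ℕ := {j | j ∈ M ∧ 2 < |(x j : ℝ)|} with hM1
  have hM1sub : M1 ⊆ M := fun j hj => hj.1
  have hM1inf : M1.Infinite := by
    intro hfin
    apply hM
    refine Set.Finite.subset (Set.Finite.union hfin (hlarge 2)) ?_
    intro j hjM
    by_cases h : 2 < |(x j : ℝ)|
    · exact Or.inl ⟨hjM, h⟩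
    · exact Or.inr ⟨hjM, h⟩
  have hI1 : Indep M1 w := by
    refine ⟨fun j hj => hI.1 j (hM1sub hj), fun l ρ hl => ?_⟩
    exact Set.Finite.subset (hI.2 l ρ hl) fun j hj => ⟨hM1sub hj.1, hj.2⟩
  have hlarge1 : ∀ B : ℝ, Evt M1 (fun j => B < |(x j : ℝ)|) := by
    intro B
    refine Set.Finite.subset (hlarge B) fun j hj => ⟨hM1sub hj.1, hj.2⟩
  set H : ℕ → ℝ := fun j => |(x j : ℝ)| ^ a with hH
  have hHpos : ∀ j ∈ M1, 0 < H j := fun j hj =>
    Real.rpow_pos_of_pos (by linarith [hj.2]) _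
  have hw1 : ∀ j ∈ M1, ∀ k, SQ S (H j) (w j k) := fun j hj' => (hj j (hM1sub hj')).1
  have hH1 : ∀ j ∈ M1, 1 ≤ H j := fun j hj' =>
    Real.one_le_rpow (by linarith [hj'.2]) ha.le
  set Z : Lau r := Y * Y - X * X * X with hZ
  have hwp : ∀ j ∈ M1, ∀ k, 0 < w j k := fun j hj' => hI1.1 j hj'
  -- values
  have hevX : ∀ j ∈ M1, evL (w j) X = (x j : ℚ) := fun j hj' => (hj j (hM1sub hj')).2.1.symm
  have hevY : ∀ j ∈ M1, evL (w j) Y = (y j : ℚ) := fun j hj' => (hj j (hM1sub hj')).2.2.1.symm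
  have hevZ : ∀ j ∈ M1, evL (w j) Z = ((y j ^ 2 - x j ^ 3 : ℤ) : ℚ) := by
    intro j hj'
    have := map_sub (evR (w j) (hwp j hj')) (Y * Y) (X * X * X)
    rw [map_mul, map_mul, map_mul] at this
    simp only [evR_apply, hevX j hj', hevY j hj'] at this
    rw [hZ, this]; push_cast; ring
  have hd0 : ∀ j ∈ M1, ((y j ^ 2 - x j ^ 3 : ℤ) : ℝ) ≠ 0 := by
    intro j hj'
    have := (hj j (hM1sub hj')).2.2.2.1
    exact_mod_cast sub_ne_zero.mpr this
  -- size of y
  have hdx : ∀ j ∈ M1, |((y j ^ 2 - x j ^ 3 : ℤ) : ℝ)| ≤ |(x j : ℝ)| ^ (1 / (2 + ε)) :=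
    fun j hj' => (hj j (hM1sub hj')).2.2.2.2
  have hsq : ∀ j ∈ M1, |(x j : ℝ)| ^ (1 / (2 + ε)) ≤ |(x j : ℝ)| := by
    intro j hj'
    have h1 : (1 : ℝ) ≤ |(x j : ℝ)| := by linarith [hj'.2]
    calc |(x j : ℝ)| ^ (1 / (2 + ε)) ≤ |(x j : ℝ)| ^ (1 : ℝ) := by
          apply Real.rpow_le_rpow_of_exponent_le h1
          rw [div_le_one (by linarith)]; linarith
      _ = |(x j : ℝ)| := Real.rpow_one _
  have hy2 : ∀ j ∈ M1, |(x j : ℝ)| ^ 3 / 2 ≤ (y j : ℝ) ^ 2 ∧ (y j : ℝ) ^ 2 ≤ 2 * |(x j : ℝ)| ^ 3 := by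
    intro j hj'
    have h1 := (hdx j hj').trans (hsq j hj')
    have h2 : 2 < |(x j : ℝ)| := hj'.2
    push_cast at h1
    have h3 : |(x j : ℝ) ^ 3| = |(x j : ℝ)| ^ 3 := abs_pow _ _
    have h4 : |(x j : ℝ)| ≤ |(x j : ℝ)| ^ 3 / 4 := by nlinarith [sq_nonneg (|(x j : ℝ)|)]
    have h5 := abs_le.mp h1
    -- x^3 positive
    have h6 : 0 ≤ (y j : ℝ) ^ 2 := sq_nonneg _
    have h7 : 0 < (x j : ℝ) ^ 3 := by
      by_contra hneg
      push Not at hneg
      rw [abs_of_nonpos hneg] at h3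
      nlinarith
    rw [abs_of_pos h7] at h3
    constructor <;> nlinarith
  have hxne : ∀ j ∈ M1, (x j : ℚ) ≠ 0 := by
    intro j hj' h0
    have h2 : 2 < |(x j : ℝ)| := hj'.2
    have : (x j : ℝ) = 0 := by exact_mod_cast h0
    rw [this] at h2; norm_num at h2
  have hyne : ∀ j ∈ M1, (y j : ℚ) ≠ 0 := by
    intro j hj' h0
    have h2 : 2 < |(x j : ℝ)| := hj'.2
    have h3 := (hy2 j hj').1
    have : (y j : ℝ) = 0 := by exact_mod_cast h0
    rw [this] at h3
    have : 0 < |(x j : ℝ)| ^ 3 := by positivity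
    linarith [sq_nonneg (0 : ℝ)]
  obtain ⟨j0, hj0, -⟩ := (hlarge1 0).ex hM1inf
  have hXne : X ≠ 0 := by
    intro h; apply hxne j0 hj0; rw [← hevX j0 hj0, h, evL_zero]
  have hYne : Y ≠ 0 := by
    intro h; apply hyne j0 hj0; rw [← hevY j0 hj0, h, evL_zero]
  have hZne : Z ≠ 0 := by
    intro h
    have h1 := hevZ j0 hj0
    rw [h, evL_zero] at h1
    apply hd0 j0 hj0
    exact_mod_cast h1.symm
  -- exponents
  set κ : ℝ := ε / (2 * (2 + ε)) with hκ
  have hκ0 : 0 < κ := by positivity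
  set ε' : ℝ := κ / (2 * a * (1 + S.card)) with hε'
  have hε'0 : 0 < ε' := by positivity
  -- all W vanish
  have hW : ∀ δ : Fin r → ℤ, 2 * (X * drv δ Y) - 3 * (Y * drv δ X) = 0 := by
    intro δ
    set W : Lau r := 2 * (X * drv δ Y) - 3 * (Y * drv δ X) with hWdef
    have hid : X * X * W = Y * drv δ Z - 2 * (Z * drv δ Y) := by
      rw [hZ, drv_sub, drv_mul, drv_mul, drv_mul, hWdef]; ring
    have hevW : ∀ j ∈ M1, evL (w j) W
        = 2 * ((x j : ℚ) * evL (w j) (drv δ Y)) - 3 * ((y j : ℚ) * evL (w j) (drv δ X)) := by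
      intro j hj'
      have h1 := map_sub (evR (w j) (hwp j hj')) (2 * (X * drv δ Y)) (3 * (Y * drv δ X))
      rw [map_mul, map_mul, map_mul, map_mul, map_ofNat, map_ofNat] at h1
      simp only [evR_apply, hevX j hj', hevY j hj'] at h1
      rw [hWdef, h1]
    have hevW2 : ∀ j ∈ M1, (x j : ℚ) * x j * evL (w j) W
        = (y j : ℚ) * evL (w j) (drv δ Z) - 2 * (((y j ^ 2 - x j ^ 3 : ℤ) : ℚ) * evL (w j) (drv δ Y)) := by
      intro j hj'
      have h1 := congrArg (evR (w j) (hwp j hj')) hid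
      rw [map_sub, map_mul, map_mul, map_mul, map_mul, map_mul, map_ofNat] at h1
      simp only [evR_apply, hevX j hj', hevY j hj', hevZ j hj'] at h1
      exact h1
    by_contra hWne
    obtain ⟨c, hc, hcW⟩ := hNUM r S W hS
    obtain ⟨KZ, hKZ, hbZ⟩ := drv_bound hAV hLAU2 S M1 w Z ε' H none hS hM1inf hε'0 hZne hI1 hw1
      hH1 hvn δ
    obtain ⟨KY, hKY, hbY⟩ := drv_bound hAV hLAU2 S M1 w Y ε' H none hS hM1inf hε'0 hYne hI1 hw1
      hH1 hvn δ
    have hp : ∀ p : ℕ, ∃ Kp : ℝ, 0 ≤ Kp ∧ (p ∈ S → Evt M1 (fun j =>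
        av (some p) (evL (w j) W) ≤ Kp * H j ^ ε')) := by
      intro p
      by_cases hpS : p ∈ S
      · have hvp : (some p) ∈ plc S := by simp [plc, hpS]
        obtain ⟨K1, hK1, hb1⟩ := drv_bound hAV hLAU2 S M1 w X ε' H (some p) hS hM1inf hε'0 hXne hI1
          hw1 hH1 hvp δ
        obtain ⟨K2, hK2, hb2⟩ := drv_bound hAV hLAU2 S M1 w Y ε' H (some p) hS hM1inf hε'0 hYne hI1
          hw1 hH1 hvp δ
        refine ⟨K1 + K2, by positivity, fun _ => (hb1.and hb2).mono ?_⟩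
        rintro j hj' ⟨h1, h2⟩
        have hE : 0 < H j ^ ε' := Real.rpow_pos_of_pos (hHpos j hj') _
        rw [hevX j hj'] at h1
        rw [hevY j hj'] at h2
        have hxi : av (some p) (x j : ℚ) ≤ 1 := hint p hpS _
        have hyi : av (some p) (y j : ℚ) ≤ 1 := hint p hpS _
        have h2i : av (some p) (2 : ℚ) ≤ 1 := by exact_mod_cast hint p hpS 2
        have h3i : av (some p) (-3 : ℚ) ≤ 1 := by exact_mod_cast hint p hpS (-3)
        have hA : av (some p) (2 * ((x j : ℚ) * evL (w j) (drv δ Y))) ≤ (K1 + K2) * H j ^ ε' := by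
          rw [hmul _ hvp, hmul _ hvp]
          calc av (some p) 2 * (av (some p) (x j : ℚ) * av (some p) (evL (w j) (drv δ Y)))
              ≤ 1 * (1 * (K2 * H j ^ ε' * av (some p) (y j : ℚ))) := by
                refine mul_le_mul h2i ?_ (mul_nonneg (hnn _ _) (hnn _ _)) zero_le_one
                exact mul_le_mul hxi h2 (hnn _ _) zero_le_one
            _ = K2 * H j ^ ε' * av (some p) (y j : ℚ) := by ring
            _ ≤ K2 * H j ^ ε' * 1 := mul_le_mul_of_nonneg_left hyi (by positivity)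
            _ ≤ (K1 + K2) * H j ^ ε' := by nlinarith
        have hB : av (some p) (-3 * ((y j : ℚ) * evL (w j) (drv δ X))) ≤ (K1 + K2) * H j ^ ε' := by
          rw [hmul _ hvp, hmul _ hvp]
          calc av (some p) (-3) * (av (some p) (y j : ℚ) * av (some p) (evL (w j) (drv δ X)))
              ≤ 1 * (1 * (K1 * H j ^ ε' * av (some p) (x j : ℚ))) := by
                refine mul_le_mul h3i ?_ (mul_nonneg (hnn _ _) (hnn _ _)) zero_le_one
                exact mul_le_mul hyi h1 (hnn _ _) zero_le_one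
            _ = K1 * H j ^ ε' * av (some p) (x j : ℚ) := by ring
            _ ≤ K1 * H j ^ ε' * 1 := mul_le_mul_of_nonneg_left hxi (by positivity)
            _ ≤ (K1 + K2) * H j ^ ε' := by nlinarith
        have hsum := hult p hpS (2 * ((x j : ℚ) * evL (w j) (drv δ Y)))
          (-3 * ((y j : ℚ) * evL (w j) (drv δ X)))
        have heq : evL (w j) W = 2 * ((x j : ℚ) * evL (w j) (drv δ Y))
            + -3 * ((y j : ℚ) * evL (w j) (drv δ X)) := by
          rw [hevW j hj']; ring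
        rw [heq]
        exact hsum.trans (max_le hA hB)
      · exact ⟨0, le_rfl, fun h => absurd h hpS⟩
    choose Kp hKp0 hKp using hp
    set K0 : ℝ := (KZ + 2 * KY) * 2 * ∏ p ∈ S, Kp p with hK0
    -- choose a bound
    obtain ⟨B, hB⟩ : ∃ B : ℝ, ∀ t : ℝ, B < t → K0 * t ^ (-(κ / 2)) < c := by
      have h1 : Filter.Tendsto (fun t : ℝ => K0 * t ^ (-(κ / 2))) Filter.atTop (nhds (K0 * 0)) :=
        (tendsto_rpow_neg_atTop (by positivity)).const_mul K0
      rw [mul_zero] at h1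
      have h2 := h1.eventually (gt_mem_nhds hc)
      obtain ⟨B, hB⟩ := Filter.eventually_atTop.mp h2
      exact ⟨B, fun t ht => hB t ht.le⟩
    have hall := ((Evt.all S (P := fun p j => av (some p) (evL (w j) W) ≤ Kp p * H j ^ ε')
      (fun p hp => hKp p hp)).and (hbZ.and hbY)).and (hlarge1 B)
    have hzero : Evt M1 (fun j => evL (w j) W = 0) := by
      refine hall.mono ?_
      rintro j hj' ⟨⟨hpp, hz, hy⟩, hBx⟩
      by_contra hne
      have h1 := hcW (w j) (H j) (hwp j hj') (hw1 j hj') hne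
      have hX2 : 2 < |(x j : ℝ)| := hj'.2
      have hXp : 0 < |(x j : ℝ)| := by linarith
      set t : ℝ := |(x j : ℝ)| with ht
      have hE : 0 < H j ^ ε' := Real.rpow_pos_of_pos (hHpos j hj') _
      rw [plc, Finset.prod_insertNone] at h1
      have h2 : ∏ p ∈ S, av (some p) (evL (w j) W) ≤ (∏ p ∈ S, Kp p) * (H j ^ ε') ^ S.card := by
        calc ∏ p ∈ S, av (some p) (evL (w j) W) ≤ ∏ p ∈ S, (Kp p * H j ^ ε') :=
              Finset.prod_le_prod (fun p _ => hnn _ _) hpp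
          _ = (∏ p ∈ S, Kp p) * (H j ^ ε') ^ S.card := by
              rw [Finset.prod_mul_distrib, Finset.prod_const]
      -- real place
      rw [hevZ j hj'] at hz
      rw [hevY j hj'] at hy
      have hdj := hdx j hj'
      have h3 : t ^ 2 * av none (evL (w j) W)
          ≤ (KZ + 2 * KY) * H j ^ ε' * (|(y j : ℝ)| * |((y j ^ 2 - x j ^ 3 : ℤ) : ℝ)|) := by
        have h4 : t ^ 2 * av none (evL (w j) W) = av none ((x j : ℚ) * x j * evL (w j) W) := by
          simp only [av]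
          push_cast
          rw [abs_mul, abs_mul, ← ht]; ring
        rw [h4, hevW2 j hj']
        have h5 := htri none hvn ((y j : ℚ) * evL (w j) (drv δ Z))
          (-2 * (((y j ^ 2 - x j ^ 3 : ℤ) : ℚ) * evL (w j) (drv δ Y)))
        have h6 : (y j : ℚ) * evL (w j) (drv δ Z)
            - 2 * (((y j ^ 2 - x j ^ 3 : ℤ) : ℚ) * evL (w j) (drv δ Y))
            = (y j : ℚ) * evL (w j) (drv δ Z)
            + -2 * (((y j ^ 2 - x j ^ 3 : ℤ) : ℚ) * evL (w j) (drv δ Y)) := by ring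
        rw [h6]
        refine h5.trans ?_
        rw [hmul _ hvn, hmul _ hvn, hmul _ hvn]
        have h7 : av none (-2 : ℚ) = 2 := by simp [av]
        have h8 : av none (y j : ℚ) = |(y j : ℝ)| := by simp [av]
        have h9 : av none (((y j ^ 2 - x j ^ 3 : ℤ) : ℚ)) = |((y j ^ 2 - x j ^ 3 : ℤ) : ℝ)| := by
          simp [av]
        rw [h7, h8, h9]
        rw [h9] at hz
        rw [h8] at hy
        have e1 : |(y j : ℝ)| * av none (evL (w j) (drv δ Z))
            ≤ |(y j : ℝ)| * (KZ * H j ^ ε' * |((y j ^ 2 - x j ^ 3 : ℤ) : ℝ)|) :=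
          mul_le_mul_of_nonneg_left hz (abs_nonneg _)
        have e2 : 2 * (|((y j ^ 2 - x j ^ 3 : ℤ) : ℝ)| * av none (evL (w j) (drv δ Y)))
            ≤ 2 * (|((y j ^ 2 - x j ^ 3 : ℤ) : ℝ)| * (KY * H j ^ ε' * |(y j : ℝ)|)) := by
          refine mul_le_mul_of_nonneg_left ?_ (by norm_num)
          exact mul_le_mul_of_nonneg_left hy (abs_nonneg _)
        calc _ ≤ _ := add_le_add e1 e2
          _ = _ := by ring
      -- |y| ≤ 2 t^(3/2)
      have hyb : |(y j : ℝ)| ≤ 2 * t ^ (3 / 2 : ℝ) := by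
        apply abs_le_of_sq_le_sq' _ (by positivity) |> abs_le.mpr
        rw [mul_pow, ← Real.rpow_natCast (t ^ (3 / 2 : ℝ)) 2, ← Real.rpow_mul hXp.le]
        have : t ^ ((3 / 2 : ℝ) * ((2 : ℕ) : ℝ)) = t ^ 3 := by
          rw [← Real.rpow_natCast t 3]; norm_num
        rw [this]
        have := (hy2 j hj').2
        rw [← ht] at this
        have h3p : 0 < t ^ 3 := by positivity
        linarith
      have h10 : |(y j : ℝ)| * |((y j ^ 2 - x j ^ 3 : ℤ) : ℝ)|
          ≤ 2 * (t ^ (3 / 2 : ℝ) * t ^ (1 / (2 + ε))) := by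
        calc _ ≤ (2 * t ^ (3 / 2 : ℝ)) * t ^ (1 / (2 + ε)) :=
              mul_le_mul hyb hdj (abs_nonneg _) (by positivity)
          _ = _ := by ring
      have h11 : av none (evL (w j) W)
          ≤ (KZ + 2 * KY) * 2 * (H j ^ ε' * (t ^ (3 / 2 : ℝ) * t ^ (1 / (2 + ε)) * t ^ (-2 : ℝ))) := by
        have h12 : t ^ 2 * av none (evL (w j) W)
            ≤ (KZ + 2 * KY) * H j ^ ε' * (2 * (t ^ (3 / 2 : ℝ) * t ^ (1 / (2 + ε)))) :=
          h3.trans (mul_le_mul_of_nonneg_left h10 (by positivity))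
        have h13 : t ^ (-2 : ℝ) * t ^ 2 = 1 := by
          rw [← Real.rpow_natCast t 2, ← Real.rpow_add hXp]; norm_num
        have h14 : 0 < t ^ (-2 : ℝ) := Real.rpow_pos_of_pos hXp _
        calc av none (evL (w j) W) = t ^ (-2 : ℝ) * (t ^ 2 * av none (evL (w j) W)) := by
              rw [← mul_assoc, h13, one_mul]
          _ ≤ t ^ (-2 : ℝ) * ((KZ + 2 * KY) * H j ^ ε' * (2 * (t ^ (3 / 2 : ℝ) * t ^ (1 / (2 + ε))))) :=
              mul_le_mul_of_nonneg_left h12 h14.le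
          _ = _ := by ring
      have h15 : av none (evL (w j) W) * ∏ p ∈ S, av (some p) (evL (w j) W)
          ≤ K0 * t ^ (-(κ / 2)) := by
        calc av none (evL (w j) W) * ∏ p ∈ S, av (some p) (evL (w j) W)
            ≤ ((KZ + 2 * KY) * 2 * (H j ^ ε' * (t ^ (3 / 2 : ℝ) * t ^ (1 / (2 + ε)) * t ^ (-2 : ℝ))))
              * ((∏ p ∈ S, Kp p) * (H j ^ ε') ^ S.card) := by
              refine mul_le_mul h11 h2 (Finset.prod_nonneg fun p _ => hnn _ _) ?_
              positivity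
          _ = K0 * ((H j ^ ε') ^ (S.card + 1)
              * (t ^ (3 / 2 : ℝ) * t ^ (1 / (2 + ε)) * t ^ (-2 : ℝ))) := by
              rw [hK0, pow_succ]; ring
          _ = K0 * t ^ (-(κ / 2)) := by
              congr 1
              have e1 : (H j ^ ε') ^ (S.card + 1) = t ^ (κ / 2) := by
                rw [hH]
                simp only
                rw [← ht, ← Real.rpow_mul hXp.le, ← Real.rpow_natCast, ← Real.rpow_mul hXp.le]
                congr 1
                rw [hε']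
                have : (0 : ℝ) < 1 + S.card := by positivity
                push_cast
                field_simp
                ring
              rw [e1, ← Real.rpow_add hXp, ← Real.rpow_add hXp, ← Real.rpow_add hXp]
              congr 1
              rw [hκ]
              field_simp
              ring
      have h16 := hB t hBx
      linarith
    exact hWne (eq_zero_of_evt hLAU2 S M1 w W H hS hM1inf hI1 hw1 hH1 hzero)
  -- Z is a multiple of Y^2
  have hprop : ∀ δ : Fin r → ℤ, Z * drv δ (Y * Y) = (Y * Y) * drv δ Z := by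
    intro δ
    have h1 := hW δ
    rw [hZ, drv_sub, drv_mul, drv_mul, drv_mul]
    have h2 : (Y * Y - X * X * X) * (Y * drv δ Y + drv δ Y * Y)
        - Y * Y * (Y * drv δ Y + drv δ Y * Y - (X * X * drv δ X + (X * drv δ X + drv δ X * X) * X))
        = - (X * X * Y) * (2 * (X * drv δ Y) - 3 * (Y * drv δ X)) := by ring
    rw [h1, mul_zero] at h2
    exact sub_eq_zero.mp h2
  have hYYne : Y * Y ≠ 0 := by
    intro h
    have h1 := congrArg (evR (w j0) (hwp j0 hj0)) h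
    rw [map_mul, map_zero] at h1
    simp only [evR_apply, hevY j0 hj0] at h1
    exact hyne j0 hj0 (mul_self_eq_zero.mp h1)
  obtain ⟨c, hc⟩ := hLAU1 r Z (Y * Y) hYYne hprop
  have hval : ∀ j ∈ M1, ((y j ^ 2 - x j ^ 3 : ℤ) : ℝ) = (c : ℝ) * (y j : ℝ) ^ 2 := by
    intro j hj'
    have h1 := hevZ j hj'
    rw [hc, evL_smul, evL_mul _ (hwp j hj'), hevY j hj'] at h1
    have h2 : (((y j ^ 2 - x j ^ 3 : ℤ) : ℚ) : ℝ) = ((c * ((y j : ℚ) * y j) : ℚ) : ℝ) := by rw [h1]
    push_cast at h2 ⊢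
    rw [h2]; ring
  have hcne : (c : ℝ) ≠ 0 := by
    intro h
    apply hd0 j0 hj0
    rw [hval j0 hj0, h, zero_mul]
  have hcp : 0 < |(c : ℝ)| := abs_pos.mpr hcne
  obtain ⟨j, hj', hbig⟩ := (hlarge1 (2 / |(c : ℝ)|)).ex hM1inf
  have hX2 : 2 < |(x j : ℝ)| := hj'.2
  have h1 := (hdx j hj').trans (hsq j hj')
  rw [hval j hj', abs_mul, abs_of_nonneg (sq_nonneg (y j : ℝ))] at h1
  have h2 := (hy2 j hj').1
  have h3 : |(c : ℝ)| * (|(x j : ℝ)| ^ 3 / 2) ≤ |(x j : ℝ)| :=
    (mul_le_mul_of_nonneg_left h2 hcp.le).trans h1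
  rw [div_lt_iff₀ hcp] at hbig
  have h4 : 1 < |(x j : ℝ)| * |(x j : ℝ)| := by nlinarith
  have h5 : 0 < |(x j : ℝ)| := by linarith
  have h6 : 2 * |(x j : ℝ)| < |(x j : ℝ)| * |(c : ℝ)| * |(x j : ℝ)| :=
    mul_lt_mul_of_pos_right hbig h5
  have h7 : |(x j : ℝ)| * |(c : ℝ)| * |(x j : ℝ)|
      ≤ |(c : ℝ)| * |(x j : ℝ)| ^ 3 := by
    have : |(x j : ℝ)| ^ 2 ≤ |(x j : ℝ)| ^ 3 := by nlinarith [sq_nonneg (|(x j : ℝ)|)]
    nlinarith
  linarith

end Pool.Agent.Helper66.SUB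

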