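import Pool.Agent.Helper70.SUB.SheetA

/-! Project SUB, row LAUB: evaluation of Laurent polynomials is a ring homomorphism, `drv` is a
derivation. -/

set_option autoImplicit false

namespace Pool.Agent.Helper66.SUB

open Finset Pool.Agent.Helper70.SUB

variable {r : ℕ}

theorem mon_add (w : Fin r → ℚ) (hw : ∀ k, 0 < w k) (m m' : Fin r → ℤ) :
    mon w (m + m') = mon w m * mon w m' := by
  unfold mon
  rw [← Finset.prod_mul_distrib]
  exact Finset.prod_congr rfl fun k _ => by
    rw [Pi.add_apply, zpow_add₀ (hw k).ne']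

theorem evL_eq (w : Fin r → ℚ) (F : Lau r) :
    evL w F = F.coeff.sum fun m c => c * mon w m := rfl

theorem evL_single (w : Fin r → ℚ) (m : Fin r → ℤ) (c : ℚ) :
    evL w (AddMonoidAlgebra.single m c) = c * mon w m := by
  rw [evL_eq, AddMonoidAlgebra.coeff_single]
  exact Finsupp.sum_single_index (by simp)

theorem evL_add (w : Fin r → ℚ) (F G : Lau r) : evL w (F + G) = evL w F + evL w G := by
  rw [evL_eq, evL_eq, evL_eq, AddMonoidAlgebra.coeff_add]
  exact Finsupp.sum_add_index' (by intro m; simp) (by intro m a b; ring)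

theorem evL_zero (w : Fin r → ℚ) : evL w (0 : Lau r) = 0 := by
  rw [evL_eq, AddMonoidAlgebra.coeff_zero]; simp

theorem evL_smul (w : Fin r → ℚ) (c : ℚ) (F : Lau r) : evL w (c • F) = c * evL w F := by
  rw [evL_eq, evL_eq, AddMonoidAlgebra.coeff_smul, Finsupp.sum_smul_index (by intro m; simp),
    Finsupp.mul_sum]
  exact Finset.sum_congr rfl fun m _ => by ring

theorem evL_mul (w : Fin r → ℚ) (hw : ∀ k, 0 < w k) (F G : Lau r) :
    evL w (F * G) = evL w F * evL w G := by
  induction F using AddMonoidAlgebra.induction_linear with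
  | zero => rw [zero_mul, evL_zero, zero_mul]
  | add F F' h h' => rw [add_mul, evL_add, evL_add, h, h', add_mul]
  | single m c =>
    induction G using AddMonoidAlgebra.induction_linear with
    | zero => rw [mul_zero, evL_zero, mul_zero]
    | add G G' h h' => rw [mul_add, evL_add, evL_add, h, h', mul_add]
    | single m' c' =>
      rw [AddMonoidAlgebra.single_mul_single, evL_single, evL_single, evL_single, mon_add w hw]
      ring

theorem coeff_drv (δ : Fin r → ℤ) (F : Lau r) (m : Fin r → ℤ) :
    (drv δ F).coeff m = ((∑ k, δ k * m k : ℤ) : ℚ) * F.coeff m := by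
  classical
  unfold drv
  rw [AddMonoidAlgebra.coeff_sum, Finsupp.finsetSum_apply]
  simp only [AddMonoidAlgebra.coeff_single, Finsupp.single_apply]
  rw [Finset.sum_ite_eq']
  split_ifs with h
  · rfl
  · rw [Finsupp.notMem_support_iff.mp h, mul_zero]

theorem drv_single (δ : Fin r → ℤ) (m : Fin r → ℤ) (c : ℚ) :
    drv δ (AddMonoidAlgebra.single m c)
      = AddMonoidAlgebra.single m (((∑ k, δ k * m k : ℤ) : ℚ) * c) := by
  classical
  apply AddMonoidAlgebra.ext
  ext m'
  rw [coeff_drv, AddMonoidAlgebra.coeff_single, AddMonoidAlgebra.coeff_single,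
    Finsupp.single_apply, Finsupp.single_apply]
  split_ifs with h
  · rw [h]
  · rw [mul_zero]

theorem drv_add (δ : Fin r → ℤ) (F G : Lau r) : drv δ (F + G) = drv δ F + drv δ G := by
  apply AddMonoidAlgebra.ext
  ext m'
  rw [coeff_drv, AddMonoidAlgebra.coeff_add, AddMonoidAlgebra.coeff_add, Finsupp.add_apply,
    Finsupp.add_apply, coeff_drv, coeff_drv, mul_add]

theorem drv_zero (δ : Fin r → ℤ) : drv δ (0 : Lau r) = 0 := by
  apply AddMonoidAlgebra.ext
  ext m'
  rw [coeff_drv, AddMonoidAlgebra.coeff_zero]; simp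

theorem drv_mul (δ : Fin r → ℤ) (F G : Lau r) :
    drv δ (F * G) = F * drv δ G + drv δ F * G := by
  induction F using AddMonoidAlgebra.induction_linear with
  | zero => rw [zero_mul, drv_zero, zero_mul, zero_mul, add_zero]
  | add F F' h h' => rw [add_mul, drv_add, drv_add, h, h', add_mul, add_mul]; abel
  | single m c =>
    induction G using AddMonoidAlgebra.induction_linear with
    | zero => rw [mul_zero, drv_zero, mul_zero, mul_zero, add_zero]
    | add G G' h h' => rw [mul_add, drv_add, drv_add, h, h', mul_add, mul_add]; abel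
    | single m' c' =>
      rw [AddMonoidAlgebra.single_mul_single, drv_single, drv_single, drv_single,
        AddMonoidAlgebra.single_mul_single, AddMonoidAlgebra.single_mul_single,
        ← AddMonoidAlgebra.single_add]
      congr 1
      have : ((∑ k, δ k * (m + m') k : ℤ) : ℚ)
          = ((∑ k, δ k * m k : ℤ) : ℚ) + ((∑ k, δ k * m' k : ℤ) : ℚ) := by
        rw [← Int.cast_add, ← Finset.sum_add_distrib]
        congr 1
        exact Finset.sum_congr rfl fun k _ => by rw [Pi.add_apply]; ring
      rw [this]; ring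

theorem LAUB : ST_LAUB := by
  intro r
  refine ⟨fun w hw => ⟨mon_add w hw, evL_single w, evL_add w, evL_smul w, evL_mul w hw⟩,
    fun δ => ⟨drv_single δ, drv_add δ, drv_mul δ, coeff_drv δ⟩⟩

end Pool.Agent.Helper66.SUB
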